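import Pool.Agent.H71.DM.Targets
import Pool.Agent.H71.DM.Basic

set_option autoImplicit false

/-!
Module RR (MP_c1331e_co): one kernel hitting all targets of finitely many rich sets.
-/

namespace Pool.Agent.H87.DM

open Finset Pool.Agent.H71.DM

/-- some law on `A` hits every element of `B` with probability at least `g` -/
def HitP {V : Type} [Fintype V] (adj : V → V → Prop) (A B : Set V) (g : ℝ) : Prop :=
  ∃ u : V → ℝ, IsProb u ∧ (∀ a, u a ≠ 0 → a ∈ A) ∧ ∀ s ∈ B, g ≤ pr u (fun a => adj a s ∨ a = s)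

theorem HitP.mono {V : Type} [Fintype V] {adj : V → V → Prop} {A A' B B' : Set V} {g : ℝ}
    (h : HitP adj A B g) (hA : A ⊆ A') (hB : B' ⊆ B) : HitP adj A' B' g := by
  obtain ⟨u, h1, h2, h3⟩ := h
  exact ⟨u, h1, fun a ha => hA (h2 a ha), fun s hs => h3 s (hB hs)⟩

/-- selection of an optimal kernel -/
theorem exists_ker (G : TSeq) (H R : ∀ n, Set (G.V n)) (hH : Rich G H) (K : ℕ) (g : ℝ) :
    ∃ u : ∀ n, Finset (G.V n) → G.V n → ℝ, IsKer G H K u ∧
      ∀ n c, HitP (G.adj n) (H n ∩ Nin (G.adj n) c) (R n) g →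
        ∀ s ∈ R n, g ≤ pr (u n c) (fun a => G.adj n a s ∨ a = s) := by
  have h1 : ∀ n (c : Finset (G.V n)), ∃ u : G.V n → ℝ, IsProb u ∧
      ((H n ∩ Nin (G.adj n) c).Nonempty → ∀ a, u a ≠ 0 → a ∈ H n ∩ Nin (G.adj n) c) ∧
      (HitP (G.adj n) (H n ∩ Nin (G.adj n) c) (R n) g →
        ∀ s ∈ R n, g ≤ pr u (fun a => G.adj n a s ∨ a = s)) := by
    intro n c
    by_cases hP : HitP (G.adj n) (H n ∩ Nin (G.adj n) c) (R n) g
    · obtain ⟨u, h1, h2, h3⟩ := hP
      exact ⟨u, h1, fun _ => h2, fun _ => h3⟩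
    · by_cases hne : (H n ∩ Nin (G.adj n) c).Nonempty
      · obtain ⟨a, ha⟩ := hne
        refine ⟨Pi.single a (1 : ℝ), single_prob a, fun _ b hb => ?_, fun h => absurd h hP⟩
        by_cases hba : b = a
        · rw [hba]
          exact ha
        · exact (hb (Pi.single_eq_of_ne hba _)).elim
      · obtain ⟨a⟩ := G.ne n
        exact ⟨Pi.single a (1 : ℝ), single_prob a, fun h => absurd h hne, fun h => absurd h hP⟩
  choose u hu1 hu2 hu3 using h1
  refine ⟨u, ⟨hu1, ?_⟩, hu3⟩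
  filter_upwards [hH K] with n hn c hc a ha
  obtain ⟨y, hy, hyc⟩ := hn c hc
  exact hu2 n c ⟨y, hy, hyc⟩ a ha

/-- the counting part, at one index -/
theorem pair_bound {X : Type} [Fintype X] {w : X → ℝ} (hw : IsProb w) (P Q : X → Prop)
    (P' Q' : X → X → Prop) (η : ℝ) (hPP : ∀ x x', P x → P' x x') (hQQ : ∀ x x', Q x' → Q' x x')
    (h1 : ∀ x', pr w (fun x => P' x x') ≤ pr w P + η)
    (h2 : ∀ x, pr w (fun x' => Q' x x') ≤ pr w Q + η)
    (h : ∀ x x', P' x x' ∨ Q' x x') :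
    pr w (fun x => ¬ P x) * pr w (fun x => ¬ Q x) ≤ 2 * η := by
  have e1 : ∀ x', pr w (fun x => P' x x' ∧ ¬ P x) ≤ η := by
    intro x'
    have h3 := pr_split w (fun x => P' x x') P
    have h4 : pr w P ≤ pr w (fun x => P' x x' ∧ P x) :=
      pr_mono' hw.1 fun x hx => ⟨hPP x x' hx, hx⟩
    have := h1 x'
    linarith
  have e2 : ∀ x, pr w (fun x' => Q' x x' ∧ ¬ Q x') ≤ η := by
    intro x
    have h3 := pr_split w (fun x' => Q' x x') Q
    have h4 : pr w Q ≤ pr w (fun x' => Q' x x' ∧ Q x') :=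
      pr_mono' hw.1 fun x' hx => ⟨hQQ x x' hx, hx⟩
    have := h2 x
    linarith
  calc pr w (fun x => ¬ P x) * pr w (fun x => ¬ Q x)
      = ex w (fun x => ex w (fun x' => ind (¬ P x) * ind (¬ Q x'))) := by
        unfold pr
        rw [← ex_mul_right]
        refine ex_congr fun x _ => ?_
        rw [ex_mul_left]
    _ ≤ ex w (fun x => ex w (fun x' => ind (P' x x' ∧ ¬ P x) + ind (Q' x x' ∧ ¬ Q x'))) := by
        refine ex_mono' hw.1 fun x => ex_mono' hw.1 fun x' => ?_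
        by_cases hP : P x
        · rw [ind_false (not_not.2 hP), zero_mul]
          exact add_nonneg (ind_nonneg _) (ind_nonneg _)
        · by_cases hQ : Q x'
          · rw [ind_false (not_not.2 hQ), mul_zero]
            exact add_nonneg (ind_nonneg _) (ind_nonneg _)
          · rcases h x x' with h' | h'
            · rw [ind_true hP, ind_true hQ, ind_true ⟨h', hP⟩]
              have := ind_nonneg (Q' x x' ∧ ¬ Q x')
              linarith
            · rw [ind_true hP, ind_true hQ, ind_true (P := Q' x x' ∧ ¬ Q x') ⟨h', hQ⟩]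
              have := ind_nonneg (P' x x' ∧ ¬ P x)
              linarith
    _ = ex w (fun x' => pr w (fun x => P' x x' ∧ ¬ P x)) +
        ex w (fun x => pr w (fun x' => Q' x x' ∧ ¬ Q x')) := by
        unfold pr
        rw [ex_comm w w (fun x' x => ind (P' x x' ∧ ¬ P x)), ← ex_add]
        refine ex_congr fun x _ => ?_
        rw [ex_add]
    _ ≤ η + η := by
        refine add_le_add ?_ ?_
        · exact ex_le hw fun x' _ => e1 x'
        · exact ex_le hw fun x _ => e2 x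
    _ = 2 * η := by ring

/-- RR -/
theorem rr (hNM : NearMaxStmt) (hRN : RichNinStmt) (hMM : MinimaxStmt) : RRStmt := by
  intro G B T γ τ τ₁ hτ hτ₁ hNF S hS hST Q _ _ Sw hSw hSwT
  obtain ⟨w₀⟩ := (inferInstance : Nonempty Q)
  have hη : 0 < τ * τ₁ / 2 := by positivity
  have hpw : ∀ n, IsProb (prodW (B.q n)) := fun n => prodW_prob (B.hq n)
  -- first maximisation
  obtain ⟨Rs, hRs, hRsle, hRsmax⟩ := hNM (Q → ∀ n, Set (G.V n))
    (fun R => (∀ w, Rich G (R w)) ∧ ∀ w, Sub G (R w) (Sw w)) (fun R R' => ∀ w, Sub G (R w) (R' w))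
    (fun R w => Sub.refl _) (fun R R' R'' h h' w => (h w).trans (h' w))
    (fun n R => pr (prodW (B.q n)) (fun x =>
      HitP (G.adj n) (S n ∩ Nin (G.adj n) (B.b n x)) (⋃ w, R w n) γ))
    (fun R _ => Filter.Eventually.of_forall fun n => ⟨pr_nonneg (hpw n).1 _, pr_le_one (hpw n) _⟩)
    (τ * τ₁ / 2) hη Sw ⟨hSw, fun w => Sub.refl _⟩
  -- second maximisation
  obtain ⟨S₁, hS₁, hS₁le, hS₁max⟩ := hNM (∀ n, Set (G.V n))
    (fun S' => Rich G S' ∧ Sub G S' S) (fun S' S'' => Sub G S' S'')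
    (fun S' => Sub.refl _) (fun S' S'' S''' h h' => h.trans h')
    (fun n S' => pr (prodW (B.q n)) (fun x =>
      HitP (G.adj n) ((⋃ w, Sw w n) ∩ Nin (G.adj n) (B.b n x)) (S' n) (1 - γ)))
    (fun S' _ => Filter.Eventually.of_forall fun n => ⟨pr_nonneg (hpw n).1 _, pr_le_one (hpw n) _⟩)
    (τ * τ₁ / 2) hη S ⟨hS, Sub.refl _⟩
  -- first claim
  have hc1 : ∀ᶠ n in UU, ∀ x', pr (prodW (B.q n)) (fun x =>
      HitP (G.adj n) (S n ∩ Nin (G.adj n) (B.b n x))
        ((⋃ w, Rs w n) ∩ Nin (G.adj n) (B.b n x')) γ) ≤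
      pr (prodW (B.q n)) (fun x =>
        HitP (G.adj n) (S n ∩ Nin (G.adj n) (B.b n x)) (⋃ w, Rs w n) γ) + τ * τ₁ / 2 := by
    by_contra hcon
    rw [← ev_not] at hcon
    have hD : ∀ n, ∃ D : Finset (G.V n), D.card ≤ B.K ∧
        ((¬ ∀ x', pr (prodW (B.q n)) (fun x =>
          HitP (G.adj n) (S n ∩ Nin (G.adj n) (B.b n x))
            ((⋃ w, Rs w n) ∩ Nin (G.adj n) (B.b n x')) γ) ≤
          pr (prodW (B.q n)) (fun x =>
            HitP (G.adj n) (S n ∩ Nin (G.adj n) (B.b n x)) (⋃ w, Rs w n) γ) + τ * τ₁ / 2) →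
          pr (prodW (B.q n)) (fun x =>
            HitP (G.adj n) (S n ∩ Nin (G.adj n) (B.b n x)) (⋃ w, Rs w n) γ) + τ * τ₁ / 2 <
          pr (prodW (B.q n)) (fun x =>
            HitP (G.adj n) (S n ∩ Nin (G.adj n) (B.b n x))
              ((⋃ w, Rs w n) ∩ Nin (G.adj n) D) γ)) := by
      intro n
      by_cases h : ∀ x', pr (prodW (B.q n)) (fun x =>
          HitP (G.adj n) (S n ∩ Nin (G.adj n) (B.b n x))
            ((⋃ w, Rs w n) ∩ Nin (G.adj n) (B.b n x')) γ) ≤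
          pr (prodW (B.q n)) (fun x =>
            HitP (G.adj n) (S n ∩ Nin (G.adj n) (B.b n x)) (⋃ w, Rs w n) γ) + τ * τ₁ / 2
      · exact ⟨∅, by simp, fun h' => absurd h h'⟩
      · have h2 := h
        push Not at h2
        obtain ⟨x', hx'⟩ := h2
        exact ⟨B.b n x', B.hb n x', fun _ => hx'⟩
    choose D hDK hD using hD
    have h3 := hRsmax (fun w n => Rs w n ∩ Nin (G.adj n) (D n))
      ⟨fun w => hRN G (Rs w) B.K D (hRs.1 w) (Filter.Eventually.of_forall hDK),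
        fun w n => Set.inter_subset_left.trans (hRs.2 w n)⟩ (fun w n => Set.inter_subset_left)
    obtain ⟨n, hn1, hn2⟩ := (hcon.and h3).exists
    have h4 := hD n hn1
    rw [← Set.iUnion_inter] at hn2
    linarith
  -- second claim
  have hc2 : ∀ᶠ n in UU, ∀ x, pr (prodW (B.q n)) (fun x' =>
      HitP (G.adj n) ((⋃ w, Sw w n) ∩ Nin (G.adj n) (B.b n x'))
        (S₁ n ∩ Nin (G.adj n) (B.b n x)) (1 - γ)) ≤
      pr (prodW (B.q n)) (fun x' =>
        HitP (G.adj n) ((⋃ w, Sw w n) ∩ Nin (G.adj n) (B.b n x')) (S₁ n) (1 - γ)) +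
          τ * τ₁ / 2 := by
    by_contra hcon
    rw [← ev_not] at hcon
    have hD : ∀ n, ∃ D : Finset (G.V n), D.card ≤ B.K ∧
        ((¬ ∀ x, pr (prodW (B.q n)) (fun x' =>
          HitP (G.adj n) ((⋃ w, Sw w n) ∩ Nin (G.adj n) (B.b n x'))
            (S₁ n ∩ Nin (G.adj n) (B.b n x)) (1 - γ)) ≤
          pr (prodW (B.q n)) (fun x' =>
            HitP (G.adj n) ((⋃ w, Sw w n) ∩ Nin (G.adj n) (B.b n x')) (S₁ n) (1 - γ)) +
              τ * τ₁ / 2) →
          pr (prodW (B.q n)) (fun x' =>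
            HitP (G.adj n) ((⋃ w, Sw w n) ∩ Nin (G.adj n) (B.b n x')) (S₁ n) (1 - γ)) +
              τ * τ₁ / 2 <
          pr (prodW (B.q n)) (fun x' =>
            HitP (G.adj n) ((⋃ w, Sw w n) ∩ Nin (G.adj n) (B.b n x'))
              (S₁ n ∩ Nin (G.adj n) D) (1 - γ))) := by
      intro n
      by_cases h : ∀ x, pr (prodW (B.q n)) (fun x' =>
          HitP (G.adj n) ((⋃ w, Sw w n) ∩ Nin (G.adj n) (B.b n x'))
            (S₁ n ∩ Nin (G.adj n) (B.b n x)) (1 - γ)) ≤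
          pr (prodW (B.q n)) (fun x' =>
            HitP (G.adj n) ((⋃ w, Sw w n) ∩ Nin (G.adj n) (B.b n x')) (S₁ n) (1 - γ)) +
              τ * τ₁ / 2
      · exact ⟨∅, by simp, fun h' => absurd h h'⟩
      · have h2 := h
        push Not at h2
        obtain ⟨x', hx'⟩ := h2
        exact ⟨B.b n x', B.hb n x', fun _ => hx'⟩
    choose D hDK hD using hD
    have h3 := hS₁max (fun n => S₁ n ∩ Nin (G.adj n) (D n))
      ⟨hRN G S₁ B.K D hS₁.1 (Filter.Eventually.of_forall hDK),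
        fun n => Set.inter_subset_left.trans (hS₁.2 n)⟩ (fun n => Set.inter_subset_left)
    obtain ⟨n, hn1, hn2⟩ := (hcon.and h3).exists
    have h4 := hD n hn1
    linarith
  -- the kernels
  have hUr : Rich G (fun n => ⋃ w, Sw w n) := (hSw w₀).sub fun n => Set.subset_iUnion (fun w => Sw w n) w₀
  have hUT : Sub G (fun n => ⋃ w, Sw w n) T := fun n => Set.iUnion_subset fun w => hSwT w n
  obtain ⟨u', hu'1, hu'2⟩ := exists_ker G (fun n => ⋃ w, Sw w n) S₁ hUr B.K (1 - γ)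
  obtain ⟨u, hu1, hu2⟩ := exists_ker G S (fun n => ⋃ w, Rs w n) hS B.K γ
  have hnf := hNF (fun n => ⋃ w, Sw w n) S₁ u' hUr hS₁.1 hUT (hS₁.2.trans hST) hu'1
  refine ⟨Rs, u, hRs.1, hRs.2, hu1, ?_⟩
  filter_upwards [hc1, hc2, hnf, hS₁.1 B.K, hRs.1 w₀ B.K] with n h1 h2 h3 h4 h5
  have hb := pair_bound (hpw n)
    (fun x => HitP (G.adj n) (S n ∩ Nin (G.adj n) (B.b n x)) (⋃ w, Rs w n) γ)
    (fun x' => HitP (G.adj n) ((⋃ w, Sw w n) ∩ Nin (G.adj n) (B.b n x')) (S₁ n) (1 - γ))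
    (fun x x' => HitP (G.adj n) (S n ∩ Nin (G.adj n) (B.b n x))
      ((⋃ w, Rs w n) ∩ Nin (G.adj n) (B.b n x')) γ)
    (fun x x' => HitP (G.adj n) ((⋃ w, Sw w n) ∩ Nin (G.adj n) (B.b n x'))
      (S₁ n ∩ Nin (G.adj n) (B.b n x)) (1 - γ)) (τ * τ₁ / 2)
    (fun x x' h => h.mono subset_rfl Set.inter_subset_left)
    (fun x x' h => h.mono subset_rfl Set.inter_subset_left) h1 h2 (fun x x' => by
      obtain ⟨y, hy, hyb⟩ := h4 (B.b n x) (B.hb n x)
      obtain ⟨z, hz, hzb⟩ := h5 (B.b n x') (B.hb n x')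
      have hm := hMM (G.V n) (G.adj n) (G.total n) (S₁ n ∩ Nin (G.adj n) (B.b n x))
        ((⋃ w, Rs w n) ∩ Nin (G.adj n) (B.b n x')) ⟨y, hy, hyb⟩
        ⟨z, Set.mem_iUnion.2 ⟨w₀, hz⟩, hzb⟩ γ
      rcases hm with hm | hm
      · left
        exact HitP.mono hm (Set.inter_subset_inter_left _ (hS₁.2 n)) subset_rfl
      · right
        exact HitP.mono hm (Set.inter_subset_inter_left _
          (Set.iUnion_mono fun w => hRs.2 w n)) subset_rfl)
  have hq : τ < pr (prodW (B.q n)) (fun x' =>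
      ¬ HitP (G.adj n) ((⋃ w, Sw w n) ∩ Nin (G.adj n) (B.b n x')) (S₁ n) (1 - γ)) := by
    rw [pr_not (hpw n)]
    unfold HitAt at h3
    rw [not_le] at h3
    have := pr_mono' (hpw n).1 (P := fun x' =>
      HitP (G.adj n) ((⋃ w, Sw w n) ∩ Nin (G.adj n) (B.b n x')) (S₁ n) (1 - γ))
      (Q := fun x => ∀ s ∈ S₁ n, 1 - γ ≤ pr (u' n (B.b n x)) (fun a => G.adj n a s ∨ a = s))
      (fun x hx => hu'2 n (B.b n x) hx)
    linarith
  have hp : pr (prodW (B.q n)) (fun x =>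
      ¬ HitP (G.adj n) (S n ∩ Nin (G.adj n) (B.b n x)) (⋃ w, Rs w n) γ) ≤ τ₁ := by
    by_contra hcon
    rw [not_le] at hcon
    have h6 : τ₁ * τ < 2 * (τ * τ₁ / 2) :=
      lt_of_lt_of_le (mul_lt_mul'' hcon hq hτ₁.le hτ.le) hb
    linarith
  unfold HitAt
  rw [pr_not (hpw n)] at hp
  have := pr_mono' (hpw n).1 (P := fun x =>
    HitP (G.adj n) (S n ∩ Nin (G.adj n) (B.b n x)) (⋃ w, Rs w n) γ)
    (Q := fun x => ∀ s ∈ ⋃ w, Rs w n, γ ≤ pr (u n (B.b n x)) (fun a => G.adj n a s ∨ a = s))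
    (fun x hx => hu2 n (B.b n x) hx)
  linarith

end Pool.Agent.H87.DM
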